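import Mathlib
import Pool.Agent.Helper413_Mak.Q4All
import Pool.Agent.Helper413_Mak.Q4Win
import Pool.Agent.Helper413_Mak.ZMAll

set_option autoImplicit false

/-!
# An infinite ternary word whose only abelian squares are powers of a letter

There is an infinite word over `{0,1,2}` in which every abelian square of period at least two is one of
`0000`, `1111`, `2222`. So all its abelian squares are among `00, 11, 22, 0000, 1111, 2222`.

The word is `∏ π^j (A_{ζ_j})`, where `ζ` is the fixed point of a 1201-uniform binary morphism, `A_0`, `A_1` are
two ternary words of length 1801 and `π` is the cyclic shift `c ↦ c + 1` of the letters, applied `j` times to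
the `j`-th block. An abelian square of period at least three descends, by a finite check modulo `256`, to
`W(j) + W(j+6q) = 2 W(j+3q)` with `q ≥ 1` for the coarse walk `W(j) = ∑_{i<j} ζ_i ρ^i(1,2)`, and the same finite
check for the binary morphism shows that the latter never happens. The abelian squares of period two lie in two
consecutive blocks and are checked one by one. All checks are made by the kernel.
-/

namespace Pool.Agent.Results.MP_1f24c5_co.OnlyLetterPowers

open Pool.Agent.Helper413_Mak

/-- There is an infinite word `w` over `{0,1,2}` such that, whenever `n ≥ 2` and the consecutive factors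
`w_i … w_{i+n-1}` and `w_{i+n} … w_{i+2n-1}` contain each letter the same number of times, then `n = 2` and
`w_i = w_{i+1} = w_{i+2} = w_{i+3}`. -/
theorem result :
    ∃ w : ℕ → Fin 3, ∀ i n : ℕ, 2 ≤ n →
      (∀ a : Fin 3,
          ((Finset.range n).filter (fun k => w (i + k) = a)).card =
          ((Finset.range n).filter (fun k => w (i + n + k) = a)).card) →
      n = 2 ∧ w (i + 1) = w i ∧ w (i + 2) = w i ∧ w (i + 3) = w i :=
  main_of4 1801 8 1201 7 ZM.L0 ZM.L1 Q4.L0 Q4.L1 Q4.al ZM.al (by norm_num) (by norm_num)
    (by norm_num) ZM.hb0 ZM.dgs ZM.ends ZM.chk Q4.dgs Q4.ends Q4.chk Q4.win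

end Pool.Agent.Results.MP_1f24c5_co.OnlyLetterPowers
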